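import Pool.Agent.Lib.MP_767201_co.Mg.G001

/-!
# TASK SE M9d: a finite type of labels

Proof. `U = {g | ∃ x, g ∈ A x}` is finite (`V` is finite); `Γ := ↥U`; `A' x := {g : U | g.1 ∈ A x}` as a finset (finite; for example `(A x).subtype (· ∈ U)` with classical decidability, or `Set.Finite.toFinset`), `len' g = len g.1`,
`par' g = par g.1` if it is in `U` and `g` otherwise. `g ∈ A' x ↔ g.1 ∈ A x`; the cardinality of `A' x` is at most that of `A x` (injective image). `RG A' len' g = RG A len g.1` (extensionality: `g' ∈ A x` implies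
`g' ∈ U`), `IsL A' len' x y n ↔ IsL A len x y n`. So all fields follow.
-/

set_option autoImplicit false

namespace Pool.Agent.Lib.MP_767201_co.SE

theorem ls_finite {V Γ₀ : Type} [Finite V] {K k D : ℕ} {E : V → V → Prop} {A : V → Finset Γ₀} {len : Γ₀ → ℕ}
    {par : Γ₀ → Γ₀} (h : LSok K k D E A len par) :
    ∃ (Γ : Type) (_ : Finite Γ) (A' : V → Finset Γ) (len' : Γ → ℕ) (par' : Γ → Γ), LSok K k D E A' len' par' := by
  classical
  let P : Γ₀ → Prop := fun g => ∃ x, g ∈ A x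
  have hfin : Finite {g // P g} := by
    have h1 : ({g | P g} : Set Γ₀).Finite := by
      have h2 : ({g | P g} : Set Γ₀) = ⋃ x, (A x : Set Γ₀) := by
        ext g
        rw [Set.mem_iUnion]
        exact Iff.rfl
      rw [h2]
      exact Set.finite_iUnion fun x => (A x).finite_toSet
    exact h1
  let A' : V → Finset {g // P g} := fun x => (A x).subtype P
  have hA : ∀ x (g : {g // P g}), g ∈ A' x ↔ g.1 ∈ A x := fun x g => Finset.mem_subtype
  let len' : {g // P g} → ℕ := fun g => len g.1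
  let par' : {g // P g} → {g // P g} := fun g => if hg : P (par g.1) then ⟨par g.1, hg⟩ else g
  have hpar : ∀ x (g : {g // P g}), g.1 ∈ A x → 2 ≤ len g.1 → (par' g).1 = par g.1 := by
    intro x g hg h2
    have h3 : P (par g.1) := ⟨x, h.parA x g.1 hg h2⟩
    change (if hg : P (par g.1) then (⟨par g.1, hg⟩ : {g // P g}) else g).1 = par g.1
    rw [dif_pos h3]
  have hRG : ∀ g : {g // P g}, RG A' len' g = RG A len g.1 := by
    intro g
    ext x y
    constructor
    · rintro ⟨h1, h2, h3, h4⟩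
      refine ⟨h1, (hA _ _).1 h2, (hA _ _).1 h3, fun g' h5 h6 h7 => ?_⟩
      exact h4 ⟨g', ⟨x, h5⟩⟩ ((hA _ _).2 h5) ((hA _ _).2 h6) (fun h8 => h7 (congrArg Subtype.val h8))
    · rintro ⟨h1, h2, h3, h4⟩
      refine ⟨h1, (hA _ _).2 h2, (hA _ _).2 h3, fun g' h5 h6 h7 => ?_⟩
      exact h4 g'.1 ((hA _ _).1 h5) ((hA _ _).1 h6) (fun h8 => h7 (Subtype.ext h8))
  refine ⟨{g // P g}, hfin, A', len', par', ?_, ?_, ?_, ?_, ?_, ?_, ?_, ?_⟩
  · intro x
    refine le_trans ?_ (h.card x)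
    change ((A x).subtype P).card ≤ (A x).card
    rw [Finset.card_subtype]
    exact Finset.card_filter_le _ _
  · exact fun x g hg => h.pos x g.1 ((hA _ _).1 hg)
  · exact fun x g hg => h.le x g.1 ((hA _ _).1 hg)
  · intro x g hg h2
    rw [hA, hpar x g ((hA _ _).1 hg) h2]
    exact h.parA x g.1 ((hA _ _).1 hg) h2
  · intro x g hg h2
    change len (par' g).1 + 1 = len g.1
    rw [hpar x g ((hA _ _).1 hg) h2]
    exact h.parL x g.1 ((hA _ _).1 hg) h2
  · intro x y n hxy hn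
    refine h.val x y n hxy ⟨fun g h1 h2 => ?_, ?_⟩
    · exact hn.1 ⟨g, ⟨x, h1⟩⟩ ((hA _ _).2 h1) ((hA _ _).2 h2)
    · rcases hn.2 with h1 | ⟨g, h1, h2, h3⟩
      · exact Or.inl h1
      · exact Or.inr ⟨g.1, (hA _ _).1 h1, (hA _ _).1 h2, h3⟩
  · intro x g hg
    obtain ⟨y, hy⟩ := h.wit x g.1 ((hA _ _).1 hg)
    refine ⟨y, ?_⟩
    rw [hRG]
    exact hy
  · intro x y g hx hy
    rw [hRG]
    exact h.conn x y g.1 ((hA _ _).1 hx) ((hA _ _).1 hy)

end Pool.Agent.Lib.MP_767201_co.SE
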