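import Mathlib

/-!
# Stable classes and structurally bounded expansion: definitions

`FG` is a finite simple graph; a class of graphs is a `Set FG`. `TL k K` is the first-order language of
transductions with `k` copies and the colours `K`: the edges of the (disjoint) copies, the relation of being copies
of the same original vertex, the predicate of each copy and of each colour. `Transduces C D`: the class `D` is
transduced from the class `C`.
-/

set_option autoImplicit false

open FirstOrder

namespace Pool.Agent.Lib.MP_767201_co.SE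

/-- A finite simple graph. -/
structure FG where
  /-- the vertices -/
  V : Type
  /-- there are finitely many vertices -/
  fin : Finite V
  /-- the graph -/
  G : SimpleGraph V

/-- The relation symbols: edges, same original vertex, the `i`-th copy, the colour `c`. -/
inductive TRel (k : ℕ) (K : Type) : ℕ → Type
  | edge : TRel k K 2
  | same : TRel k K 2
  | copy (i : Fin k) : TRel k K 1
  | col (c : K) : TRel k K 1

/-- The language of a transduction with `k` copies and the colours `K`. -/
def TL (k : ℕ) (K : Type) : Language := ⟨fun _ => Empty, TRel k K⟩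

/-- The `k` copies of the graph `G` with the colouring `χ`. -/
@[reducible] def tstr {V : Type} (G : SimpleGraph V) {k : ℕ} {K : Type} (χ : V × Fin k → K) : (TL k K).Structure (V × Fin k) where
  funMap := fun f => nomatch f
  RelMap := fun {n} (r : TRel k K n) =>
    match n, r with
    | _, .edge => fun x => (x 0).2 = (x 1).2 ∧ G.Adj (x 0).1 (x 1).1
    | _, .same => fun x => (x 0).1 = (x 1).1
    | _, .copy i => fun x => (x 0).2 = i
    | _, .col c => fun x => χ (x 0) = c

/-- The formula `φ(x, y)` holds in the coloured copies of `G`. -/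
def sat {V : Type} (G : SimpleGraph V) {k : ℕ} {K : Type} (χ : V × Fin k → K) (φ : (TL k K).Formula (Fin 2))
    (x y : V × Fin k) : Prop :=
  @Language.Formula.Realize (TL k K) (V × Fin k) (tstr G χ) (Fin 2) φ ![x, y]

/-- The class `D` is transduced from the class `C`. -/
def Transduces (C D : Set FG) : Prop :=
  ∃ (k : ℕ) (K : Type) (φ : (TL k K).Formula (Fin 2)), 0 < k ∧ Finite K ∧
    ∀ H ∈ D, ∃ G ∈ C, ∃ (χ : G.V × Fin k → K) (i : H.V → G.V × Fin k), Function.Injective i ∧
      ∀ x y, H.G.Adj x y ↔ x ≠ y ∧ (sat G.G χ φ (i x) (i y) ∨ sat G.G χ φ (i y) (i x))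

/-- `H` is an `r`-shallow minor of `G`: pairwise disjoint branch sets `B w`, every element of `B w` is reached from the
centre `c w` by a walk of length at most `r` inside `B w`, and adjacent vertices of `H` have adjacent branch sets. -/
def ShallowMinor (r : ℕ) {W V : Type} (H : SimpleGraph W) (G : SimpleGraph V) : Prop :=
  ∃ (B : W → Set V) (c : W → V), (∀ w, c w ∈ B w) ∧ (∀ w w', w ≠ w' → Disjoint (B w) (B w')) ∧
    (∀ w, ∀ v ∈ B w, ∃ p : G.Walk (c w) v, p.length ≤ r ∧ ∀ x ∈ p.support, x ∈ B w) ∧
    ∀ w w', H.Adj w w' → ∃ x ∈ B w, ∃ y ∈ B w', G.Adj x y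

/-- Bounded expansion. -/
def BoundedExpansion (C : Set FG) : Prop :=
  ∀ r : ℕ, ∃ c : ℕ, ∀ G ∈ C, ∀ H : FG, ShallowMinor r H.G G.G → H.G.edgeSet.ncard ≤ c * Nat.card H.V

/-- Structurally bounded expansion. -/
def StructBE (C : Set FG) : Prop := ∃ D : Set FG, BoundedExpansion D ∧ Transduces D C

/-- Weakly sparse: no `K_{s,s}` for some `s`. -/
def WeaklySparse (C : Set FG) : Prop :=
  ∃ s : ℕ, ∀ G ∈ C, ¬ ∃ a b : Fin s → G.V, Function.Injective a ∧ Function.Injective b ∧ (∀ i j, a i ≠ b j) ∧
    ∀ i j, G.G.Adj (a i) (b j)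

/-- Stable: no semi-induced ladder of order `n` for some `n`. -/
def Stable (C : Set FG) : Prop :=
  ∃ n : ℕ, ∀ G ∈ C, ¬ ∃ a b : Fin n → G.V, Function.Injective a ∧ Function.Injective b ∧ (∀ i j, a i ≠ b j) ∧
    ∀ i j, G.G.Adj (a i) (b j) ↔ i ≤ j

/-- Adjacency of different vertices is determined by the intersection of label sets with at most `k` elements. -/
def LabelDet (k : ℕ) (G : FG) : Prop :=
  ∃ (S : G.V → Finset ℕ) (f : Finset ℕ → Prop), (∀ v, (S v).card ≤ k) ∧ ∀ u v, u ≠ v → (G.G.Adj u v ↔ f (S u ∩ S v))

end Pool.Agent.Lib.MP_767201_co.SE
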