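import Pool.Agent.Lib.MP_767201_co.Mg.G002
import Pool.Agent.Lib.MP_767201_co.Mg.G007
import Pool.Agent.Lib.MP_767201_co.Mg.G009
import Pool.Agent.Lib.MP_767201_co.Mg.G001

/-!
# The dichotomy for label-determined classes
-/

set_option autoImplicit false

namespace Pool.Agent.Lib.MP_767201_co.SE

theorem dichotomy (k : ℕ) (C : Set FG) (h : ∀ G ∈ C, LabelDet k G) :
    Stable C ∧ (StructBE C ∨ ∃ D : Set FG, WeaklySparse D ∧ ¬ BoundedExpansion D ∧ Transduces C D) := by
  refine ⟨stable_of_labelDet k C h, ?_⟩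
  obtain ⟨K, D, hKD⟩ := exists_LS k
  by_cases hB : BoundedExpansion (incClass K k D C)
  · left
    exact structBE_of_inc K k D C hB (fun G hG => hKD G (h G hG))
  · right
    obtain ⟨R, hR⟩ := not_be_out K k D C hB
    exact ⟨outClass R C, outClass_ws R C, hR, outClass_trans R C⟩

end Pool.Agent.Lib.MP_767201_co.SE
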